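import Pool.Agent.H841.Super

/-!
A sequence of two-party functions whose zero-information Arthur-Merlin complexity is not bounded by
a constant times the co-nondeterministic complexity.

`AMProtocol`, `IsZAM` and `ZAM` are defined in `Pool.Agent.H570R2.ZamDefs`.
-/

namespace Pool.Agent.Results.MP_668cf7_lc.ZamVsCoNP

open Filter Topology Pool.Agent.H570R2 Pool.Agent.H841

/-- The 0-inputs of `f` are the union of `N` rectangles `A i ×ˢ B i`. -/
def ZeroCover {X Y : Type} (f : X → Y → Bool) (N : ℕ) : Prop :=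
  ∃ (A : Fin N → Set X) (B : Fin N → Set Y), (⋃ i, A i ×ˢ B i) = {p : X × Y | f p.1 p.2 = false}

/-- `coNP(f) = ⌈log₂ N⌉` for the least number `N` of rectangles inside the 0-inputs of `f` whose
union is the set of 0-inputs. -/
noncomputable def coNP {X Y : Type} (f : X → Y → Bool) : ℕ :=
  Nat.clog 2 (sInf {N : ℕ | ZeroCover f N})

lemma zeroCover_disj (n : ℕ) : ZeroCover (DISJ n) n := by
  refine ⟨fun i => {x | x i = true}, fun i => {y | y i = true}, ?_⟩
  ext ⟨x, y⟩
  simp [DISJ]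

lemma coNP_disj_le (n : ℕ) : coNP (DISJ n) ≤ Nat.clog 2 n := by
  unfold coNP
  exact Nat.clog_mono_right 2 (Nat.sInf_le (zeroCover_disj n))

/-- There are functions `f_n : {0,1}^n × {0,1}^n → {0,1}` with
`ZAM(f_n) / max(1, coNP(f_n)) → ∞`. -/
theorem result :
    ∃ f : (n : ℕ) → (Fin n → Bool) → (Fin n → Bool) → Bool,
      Tendsto (fun n : ℕ => ((ZAM (f n) : ℕ∞) : ENNReal) / ((max 1 (coNP (f n)) : ℕ) : ENNReal))
        atTop (𝓝 ⊤) := by
  refine ⟨DISJ, ?_⟩
  rw [ENNReal.tendsto_nhds_top_iff_nat]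
  intro C
  filter_upwards [zam_gt C, eventually_ge_atTop 2] with n hn hn2
  have hc : 1 ≤ Nat.clog 2 n := Nat.clog_pos (by norm_num) hn2
  have hmax : max 1 (coNP (DISJ n)) ≤ Nat.clog 2 n := max_le hc (coNP_disj_le n)
  have hpos : 0 < max 1 (coNP (DISJ n)) := lt_of_lt_of_le one_pos (le_max_left _ _)
  rw [ENNReal.lt_div_iff_mul_lt (Or.inl (by exact_mod_cast hpos.ne'))
    (Or.inl (ENNReal.natCast_ne_top _))]
  have h2 : (C : ENNReal) * ((max 1 (coNP (DISJ n)) : ℕ) : ENNReal) ≤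
      ((C * Nat.clog 2 n : ℕ) : ENNReal) := by
    exact_mod_cast Nat.mul_le_mul_left C hmax
  refine lt_of_le_of_lt h2 ?_
  have h3 : ((C * Nat.clog 2 n + 1 : ℕ) : ENNReal) ≤ ((ZAM (DISJ n) : ℕ∞) : ENNReal) := by
    have h4 := ENat.toENNReal_le.2 hn
    simpa using h4
  refine lt_of_lt_of_le ?_ h3
  exact_mod_cast Nat.lt_succ_self _

end Pool.Agent.Results.MP_668cf7_lc.ZamVsCoNP
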